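import Pool.Agent.N984.DI.Stm

set_option autoImplicit false

namespace Pool.Agent.N136.DI.OPM

open Pool.Agent.N984.DI
open Matrix Finset
open scoped ComplexOrder MatrixOrder Matrix.Norms.L2Operator

theorem mpow_eq {ι : Type} [Fintype ι] [DecidableEq ι] (X : Matrix ι ι ℂ) (hX : 0 ≤ X) (q : ℝ) :
    (X : Matrix ι ι ℂ) ^ (q : ℝ) = mpow X q := by
  rw [CFC.rpow_eq_cfc_real hX]
  rfl

theorem t_OPM (_h0 : CFD) (_h1 : SPD) (h : OPC) : OP := by
  intro ι _ _ A B hA hB p hp0 hp2 hle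
  have hA' : IsStrictlyPositive A := Matrix.isStrictlyPositive_iff_posDef.2 hA
  have hB' : IsStrictlyPositive B := Matrix.isStrictlyPositive_iff_posDef.2 hB
  have hA0 : 0 ≤ A := hA'.nonneg
  have hB0 : 0 ≤ B := hB'.nonneg
  have hX0 : 0 ≤ B * (A * A) * B := by
    have h1 : (B * (A * A) * B) = star (A * B) * (A * B) := by
      rw [star_mul, hA'.isSelfAdjoint.star_eq, hB'.isSelfAdjoint.star_eq]
      simp only [mul_assoc]
    rw [h1]
    exact star_mul_self_nonneg _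
  have h2 := h (Matrix ι ι ℂ) A B hA' hB' p hp0 hp2 (by
    rw [mpow_eq _ hX0, Matrix.le_iff]
    exact hle)
  rw [mpow_eq _ hA0, mpow_eq _ hB0, Matrix.le_iff] at h2
  exact h2

end Pool.Agent.N136.DI.OPM
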